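import Pool.Agent.Y645.UP.Stm
import Pool.Agent.Y988.UM.Tor

/-!
# Project UP, job TOR: closed points of small rank are dense (adapted from the module of helper988)
-/

set_option autoImplicit false

namespace Pool.Agent.Y429.UP

open MvPolynomial Module Pool.Agent.Y645.UL Pool.Agent.Y645.UM Pool.Agent.Y645.UP

theorem t_TORp (hEXT : Pool.Agent.Y645.UM.S_EXTm) : Pool.Agent.Y645.UP.S_TORp := by
  intro k F J _ _ _ _ _ _ D hD a f hf
  classical
  obtain ⟨B, hBc, hAI, hAlg⟩ := exists_basis (k := k) a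
  obtain ⟨s, hs, hx⟩ := hEXT k F J a f B hf hAI hAlg
  obtain ⟨ζ, hζ1, hζ2⟩ : ∃ ζ : B → k, (∀ j : B, ζ j ∈ D.C) ∧ eval ζ s ≠ 0 := by
    by_contra hcon
    push Not at hcon
    apply hs
    refine funext_set (fun _ : B => D.C) (fun _ => hD.2.2) fun y hy => ?_
    rw [map_zero]
    exact hcon y fun j => hy j (Set.mem_univ j)
  obtain ⟨x, hspc, hfx, hxb⟩ := hx ζ hζ2
  have hae : ∀ g : MvPolynomial J k, aeval x g = eval x g := fun g => by
    rw [aeval_eq_eval]
  have hSp : Spp k a x := by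
    intro g hg
    rw [hae]
    exact hspc g hg
  refine ⟨x, hSp, hfx, ?_⟩
  have h5 := Pool.Agent.Y988.UM.isoRk_drop D hD a x B hSp hAI (by
    intro i hi
    have h3 := hxb ⟨i, hi⟩
    have h4 := hζ1 ⟨i, hi⟩
    rw [← h3] at h4
    exact h4)
  rw [← hBc]
  exact h5

end Pool.Agent.Y429.UP
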